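import Pool.Agent.BEK.Stmts

/-! # Squad BEK (MP_be01ff_an), row DSK: every annulus -/

set_option autoImplicit false

namespace Pool.Agent.BEK.H49

open Set Filter Topology MeasureTheory
open scoped InnerProductSpace ENNReal
open Pool.Agent.BE01 Pool.Agent.BED Pool.Agent.BEJ Pool.Agent.BEK

theorem dsk_dom (a b : ℝ) (ha : 0 < a) (hab : a < b) : Dom (An a b) := by
  refine ⟨?_, ?_, ?_⟩
  · exact (isOpen_lt continuous_const continuous_norm).inter
      (isOpen_lt continuous_norm continuous_const)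
  · have hsub : An a b ⊆ Metric.ball (0 : En 2) b := fun y hy => by
      rw [mem_ball_zero_iff]
      exact hy.2
    exact Metric.isBounded_ball.subset hsub
  · have h0 : (0 : ℝ) ≤ (a + b) / 2 := by linarith
    have hy : ‖(EuclideanSpace.single (0 : Fin 2) ((a + b) / 2) : En 2)‖ = (a + b) / 2 := by
      rw [EuclideanSpace.norm_single, Real.norm_eq_abs, abs_of_nonneg h0]
    exact ⟨EuclideanSpace.single (0 : Fin 2) ((a + b) / 2), by rw [hy]; linarith,
      by rw [hy]; linarith⟩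

theorem dsk_mem (a b : ℝ) (g : En 2 ≃ₗᵢ[ℝ] En 2) (x : En 2) : g x ∈ An a b ↔ x ∈ An a b := by
  show (a < ‖g x‖ ∧ ‖g x‖ < b) ↔ (a < ‖x‖ ∧ ‖x‖ < b)
  rw [g.norm_map]

/-- row DSK -/
theorem dsk (fn3 : Fn3Stmt) (spk : SpkStmt) (phk : PhkStmt) (wpr : WprStmt) (zka : ZkaStmt)
    (orn : OrnStmt) : DskStmt := by
  intro a b A p ha hab hA hp
  obtain ⟨N, S, B, hS1, hN⟩ := orn a b p ha hab hp
  obtain ⟨C, X, hC, hX, -, hHH⟩ := wpr
  obtain ⟨s, hs, hs1, hD, hres⟩ := zka a b (max S (X / a)) (1 + 2 * p * N) ha hab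
  have hsS : S ≤ s := (le_max_left _ _).trans hs
  have hsX : X / a ≤ s := (le_max_right _ _).trans hs
  have hs0 : 0 < s := by linarith
  have hH : HH (s * a) ≠ 0 := hHH _ (by rwa [div_le_iff₀ ha] at hsX)
  obtain ⟨φ, hφ, hφr, hφe⟩ := phk a b s ha hab hs0 hD
  obtain ⟨hb, hlt⟩ := hN s φ hsS hφ
  have hφ0 : φ ≠ 0 := by
    intro h0
    have h1 : (φ : En 2 → ℝ) =ᵐ[mu (An a b)] fun _ => 0 := by
      rw [h0]; exact Lp.coeFn_zero _ _ _
    have h2 : ∫ y, φ y ^ 2 ∂(mu (An a b)) = 0 := by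
      rw [integral_congr_ae (g := fun _ => (0 : ℝ)) (by
        filter_upwards [h1] with y hy
        rw [hy]; norm_num)]
      simp
    have h3 : ∫ y, φ y ^ (2 * p + 2) ∂(mu (An a b)) = 0 := by
      rw [integral_congr_ae (g := fun _ => (0 : ℝ)) (by
        filter_upwards [h1] with y hy
        rw [hy]; exact zero_pow (by omega))]
      simp
    rw [h2, h3] at hlt
    simp at hlt
  refine fn3 2 (An a b) Set.univ p N A (s ^ 2) (B / s) φ (Or.inl rfl) (dsk_dom a b ha hab)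
    (fun g _ x => dsk_mem a b g x) hp hA hφ0 hφr hφe ?_ hb hlt ?_
  · exact (spk a b s ha hab hs0).2 hH φ hφ0 hφr hφe
  · intro n hn h3 hle u hu hue
    have hn0 : (0 : ℝ) < n := by
      have : 0 < n := by omega
      exact_mod_cast this
    refine (spk a b (n * s) ha hab (mul_pos hn0 hs0)).1 (hres n hn h3 hle) u hu ?_
    rw [mul_pow]
    exact hue

end Pool.Agent.BEK.H49
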